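import Pool.Agent.H73.EX.Red

set_option autoImplicit false

/-! # Two generic leaves of the reduction (helper73) -/

namespace Pool.Agent.H73.EX

open Set

variable {V : Type} (E : V → V → Prop) (S : Set V → Prop)

/-- In a dead state every unqueried vertex is irrelevant. -/
theorem dead_leaf (T N : Set V) (r u : V) (hrT : r ∉ T) (hrN : r ∉ N) (hu : u ∈ N)
    (hur : E u r) (hd : ∀ X : Set V, T ⊆ X → Disjoint X N → ¬ S X) : W1 E S T N := by
  refine W1.leaf T N r hrT hrN u hu hur (fun X hTX hXN => ?_)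
  have h1 : ¬ S (insert r X) := by
    refine hd _ (hTX.trans (subset_insert _ _)) ?_
    rw [Set.disjoint_left]
    rintro x (hx | hx)
    · rw [hx]; exact hrN
    · exact Set.disjoint_left.1 hXN hx
  have h2 : ¬ S (X \ {r}) := by
    refine hd _ (fun x hx => ⟨hTX hx, fun h => hrT (h ▸ hx)⟩) ?_
    exact Set.disjoint_of_subset_left sdiff_subset hXN
  exact ⟨fun h => absurd h h1, fun h => absurd h h2⟩

/-- A leaf `w` in a non-face `B` of partners of `w`: query the other vertices of `B`; if all are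
present the state is dead and another unqueried vertex `r` is irrelevant. -/
theorem fiber_leaf [Finite V] (hdown : ∀ A B : Set V, A ⊆ B → S B → S A) (B : Set V) (w r u0 : V)
    (hBw : ∀ v ∈ B, v ≠ w → E v w) (hrB : r ∉ B)
    (hfib : ¬ S B) (hu0 : E u0 r) :
    ∀ (n : ℕ) (T N : Set V), ({v | v ∈ B ∧ v ≠ w} \ (T ∪ N)).ncard = n →
    w ∉ T → w ∉ N → r ∉ T → r ∉ N → u0 ∈ N →
    (∀ X : Set V, T ⊆ X → Disjoint X N → (S (insert w X) ↔ S (X \ {w}))) → W1 E S T N := by
  intro n
  induction n with
  | zero =>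
    intro T N hn hwT hwN hrT hrN hu hirr
    by_cases h : ∃ u ∈ N, u ∈ B
    · obtain ⟨u, hu1, hu2⟩ := h
      exact W1.leaf T N w hwT hwN u hu1 (hBw u hu2 (fun h => hwN (h ▸ hu1))) hirr
    push Not at h
    rw [Set.ncard_eq_zero (Set.toFinite _)] at hn
    have hsub : B ⊆ insert w T := by
      intro v hv
      by_cases hvw : v = w
      · exact Or.inl hvw
      · right
        by_contra hvT
        have : v ∈ ({v | v ∈ B ∧ v ≠ w} \ (T ∪ N)) :=
          ⟨⟨hv, hvw⟩, fun h2 => h2.elim hvT (fun h3 => h v h3 hv)⟩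
        rw [hn] at this
        exact this
    refine dead_leaf E S T N r u0 hrT hrN hu hu0 (fun X hTX hXN hSX => ?_)
    by_cases hwX : w ∈ X
    · exact hfib (hdown _ _ (hsub.trans (Set.insert_subset hwX hTX)) hSX)
    · have := hirr X hTX hXN
      rw [Set.sdiff_singleton_eq_self hwX] at this
      exact hfib (hdown _ _ (hsub.trans (Set.insert_subset_insert hTX)) (this.2 hSX))
  | succ n ih =>
    intro T N hn hwT hwN hrT hrN hu hirr
    have hne : ({v | v ∈ B ∧ v ≠ w} \ (T ∪ N)).Nonempty := by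
      rw [← Set.ncard_pos (Set.toFinite _)]; omega
    obtain ⟨v, ⟨hvt, hvw⟩, hvTN⟩ := hne
    have hvT : v ∉ T := fun h => hvTN (Or.inl h)
    have hvN : v ∉ N := fun h => hvTN (Or.inr h)
    refine W1.query T N v hvT hvN ?_ ?_
    · apply ih
      · have e : {v | v ∈ B ∧ v ≠ w} \ (insert v T ∪ N) =
            ({v | v ∈ B ∧ v ≠ w} \ (T ∪ N)) \ {v} := by
          ext y; simp only [mem_sdiff, mem_union, mem_insert_iff, mem_singleton_iff]; tauto
        rw [e, Set.ncard_sdiff_singleton_of_mem
          (show v ∈ {v | v ∈ B ∧ v ≠ w} \ (T ∪ N) from ⟨⟨hvt, hvw⟩, hvTN⟩), hn]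
        rfl
      · rintro (h | h)
        · exact hvw h.symm
        · exact hwT h
      · exact hwN
      · rintro (h | h)
        · exact hrB (h ▸ hvt)
        · exact hrT h
      · exact hrN
      · exact hu
      · intro X hTX hXN
        exact hirr X ((subset_insert _ _).trans hTX) hXN
    · refine W1.leaf T _ w hwT ?_ v (Or.inl rfl) (hBw v hvt hvw) (fun X hTX hXN => ?_)
      · rintro (h | h)
        · exact hvw h.symm
        · exact hwN h
      · exact hirr X hTX (Set.disjoint_of_subset_right (subset_insert _ _) hXN)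

end Pool.Agent.H73.EX
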