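import Pool.Graph.R_seed8.H571R3.Red

set_option autoImplicit false

/-! # Evasiveness: a reduction with tied words (helper73)

`W1 E S T N`: a winning strategy for the complex `S` all whose leaves `v` have an absent partner,
i.e. a vertex `u ∈ N` with `E u v`.  `π w c` is the letter of the word `w` at the coordinate `c`.
If letters can be exchanged along `E` (`hex`) one gets from such strategies for the states
`(∅, {a})` and `({a}, {b})`, where `{a, b}` is not a face, a nonevasive function of the words. -/

namespace Pool.Agent.H73.EX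

open Set
open Pool.Agent.H571R3 (Win win_search)

/-- A winning strategy all whose leaves `v` have an absent partner. -/
inductive W1 {V : Type} (E : V → V → Prop) (S : Set V → Prop) : Set V → Set V → Prop
  | leaf (T N : Set V) (v : V) (hT : v ∉ T) (hN : v ∉ N) (u : V) (hu : u ∈ N)
      (huv : E u v)
      (h : ∀ X : Set V, T ⊆ X → Disjoint X N → (S (insert v X) ↔ S (X \ {v}))) : W1 E S T N
  | query (T N : Set V) (v : V) (hT : v ∉ T) (hN : v ∉ N) :
      W1 E S (insert v T) N → W1 E S T (insert v N) → W1 E S T N

section words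

variable {V W C : Type} (π : W → C → V) (E : V → V → Prop) (S : Set V → Prop)

/-- the letters which do not occur at coordinate `c` of a word in `X`. -/
def ms (X : Set W) (c : C) : Set V := {v | ∀ w ∈ X, π w c ≠ v}

/-- The transitive function. -/
def FF (X : Set W) : Prop := ∃ c, S (ms π X c)

theorem ms_anti {X Y : Set W} (h : X ⊆ Y) (c : C) : ms π Y c ⊆ ms π X c :=
  fun _ hv w hw => hv w (h hw)

/-- the words absent because of the dead coordinates `D`. -/
def dead (a b : V) (D : Set C) : Set W := {w | ∃ c ∈ D, π w c = a ∨ π w c = b}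

variable (hex : ∀ (w : W) (c : C) (v : V), E (π w c) v →
  ∃ z : W, π z c = v ∧ ∀ d, d ≠ c → π z d = π w d)

include hex in
/-- Playing the strategy of `S` at the coordinate `c`. -/
theorem play (c : C) (B : Set W)
    (hB : ∀ w w' : W, (∀ d, d ≠ c → π w d = π w' d) → w ∈ B → w' ∈ B)
    [Finite W] (ones zeros : Set V) (hwin : W1 E S ones zeros) :
    ∀ T N : Set W, (∀ w ∈ N, w ∈ B ∨ π w c ∈ ones ∨ π w c ∈ zeros) →
      (∀ v ∈ ones, ∀ w : W, π w c = v → w ∈ N) → (∀ w ∈ T, π w c ∈ zeros) →
      (∀ v ∈ zeros, ∃ w ∈ T, π w c = v) → (∀ w ∈ T, w ∉ B) → B ⊆ N → Win (FF π S) T N := by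
  induction hwin with
  | leaf ones zeros v hv1 hv0 u hu huv h =>
    intro T N ha hb hc hd he hf
    obtain ⟨x, hxT, hxc⟩ := hd u hu
    obtain ⟨z, hzc, hzd⟩ := hex x c v (by rw [hxc]; exact huv)
    have hzT : z ∉ T := fun hz => hv0 (hzc ▸ hc z hz)
    have hzN : z ∉ N := by
      intro hz
      rcases ha z hz with h1 | h1 | h1
      · exact he x hxT (hB z x hzd h1)
      · exact hv1 (hzc ▸ h1)
      · exact hv0 (hzc ▸ h1)
    refine Win.irrel T N z hzT hzN (fun X hTX hXN => ?_)
    have hxz : x ≠ z := fun e => hzT (e ▸ hxT)
    have hoth : ∀ d, d ≠ c → ms π (insert z X) d = ms π (X \ {z}) d := by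
      intro d hdc
      apply Subset.antisymm
      · exact ms_anti π (sdiff_subset.trans (subset_insert _ _)) d
      · intro v' hv' w hw hwd
        by_cases hwz : w = z
        · subst hwz
          rw [hzd d hdc] at hwd
          exact hv' x ⟨hTX hxT, hxz⟩ hwd
        · exact hv' w ⟨hw.resolve_left hwz, hwz⟩ hwd
    have hat : S (ms π (insert z X) c) ↔ S (ms π (X \ {z}) c) := by
      set A := ms π (insert z X) c with hA
      set B' := ms π (X \ {z}) c with hB'
      have hAB : A ⊆ B' := ms_anti π (sdiff_subset.trans (subset_insert _ _)) c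
      have hBA : B' ⊆ insert v A := by
        intro v' hv'
        by_cases hvv : v' = v
        · exact Or.inl hvv
        · right
          intro w hw hwc
          by_cases hwz : w = z
          · rw [hwz, hzc] at hwc; exact hvv hwc.symm
          · exact hv' w ⟨hw.resolve_left hwz, hwz⟩ hwc
      have hvA : v ∉ A := fun hva => hva z (Or.inl rfl) hzc
      have hoA : ones ⊆ A := by
        intro v' hv' w hw hwc
        have hwN := hb v' hv' w hwc
        rcases hw with h1 | h1
        · exact hzN (h1 ▸ hwN)
        · exact Set.disjoint_left.mp hXN h1 hwN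
      have hzA : Disjoint A zeros := by
        rw [Set.disjoint_left]
        intro v' hv' hv'z
        obtain ⟨w, hwT, hwc⟩ := hd v' hv'z
        exact hv' w (Or.inr (hTX hwT)) hwc
      have hh := h A hoA hzA
      rw [Set.sdiff_singleton_eq_self hvA] at hh
      by_cases hvB : v ∈ B'
      · have : B' = insert v A := by
          apply Subset.antisymm hBA
          rintro y (hy | hy)
          · rw [hy]; exact hvB
          · exact hAB hy
        rw [this]; exact hh.symm
      · have : A = B' := by
          apply Subset.antisymm hAB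
          intro y hy
          rcases hBA hy with h1 | h1
          · exact absurd (h1 ▸ hy) hvB
          · exact h1
        rw [this]
    constructor
    · rintro ⟨d, hd'⟩
      by_cases hdc : d = c
      · subst hdc; exact ⟨d, hat.mp hd'⟩
      · exact ⟨d, by rw [← hoth d hdc]; exact hd'⟩
    · rintro ⟨d, hd'⟩
      by_cases hdc : d = c
      · subst hdc; exact ⟨d, hat.mpr hd'⟩
      · exact ⟨d, by rw [hoth d hdc]; exact hd'⟩
  | query ones zeros v hv1 hv0 _ _ ih1 ih0 =>
    intro T N ha hb hc hd he hf
    have hTv : ∀ w ∈ T, π w c ≠ v := fun w hw e => hv0 (e ▸ hc w hw)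
    refine win_search (FF π S) {w | π w c = v} T _ N rfl ?_ ?_
    · intro y hyc hyT hyN N' hN1 hN2 hyN'
      have hyc' : π y c = v := hyc
      refine ih0 (insert y T) N' ?_ (fun v' hv' w hw => hN1 (hb v' hv' w hw)) ?_ ?_ ?_
        (hf.trans hN1)
      · intro w hw
        rcases hN2 hw with h1 | h1
        · rcases ha w h1 with h2 | h2 | h2
          · exact Or.inl h2
          · exact Or.inr (Or.inl h2)
          · exact Or.inr (Or.inr (Or.inr h2))
        · exact Or.inr (Or.inr (Or.inl h1.1))
      · rintro w (h1 | h1)
        · rw [h1, hyc']; exact Or.inl rfl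
        · exact Or.inr (hc w h1)
      · rintro v' (h1 | h1)
        · exact ⟨y, Or.inl rfl, hyc'.trans h1.symm⟩
        · obtain ⟨w, hw, hwc⟩ := hd v' h1
          exact ⟨w, Or.inr hw, hwc⟩
      · rintro w (h1 | h1)
        · rw [h1]; exact fun h2 => hyN (hf h2)
        · exact he w h1
    · refine ih1 T _ ?_ ?_ hc hd he (hf.trans subset_union_left)
      · rintro w (h1 | h1)
        · rcases ha w h1 with h2 | h2 | h2
          · exact Or.inl h2
          · exact Or.inr (Or.inl (Or.inr h2))
          · exact Or.inr (Or.inr h2)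
        · exact Or.inr (Or.inl (Or.inl h1.1))
      · rintro v' (h1 | h1) w hw
        · exact Or.inr ⟨hw.trans h1, fun h2 => hTv w h2 (hw.trans h1)⟩
        · exact Or.inl (hb v' h1 w hw)

include hex in
/-- The reduction theorem. -/
theorem reduce [Finite W] [Finite C]
    (hdown : ∀ A B : Set V, A ⊆ B → S B → S A) (a b : V) (z : W)
    (hz : ∀ c, π z c ≠ a ∧ π z c ≠ b) (hS : ¬ S {a, b})
    (hw1 : W1 E S ∅ {a}) (hw2 : W1 E S {a} {b}) : Win (FF π S) ∅ ∅ := by
  have main : ∀ (m : ℕ) (D : Set C), (Dᶜ).ncard = m →
      Win (FF π S) ∅ (dead π a b D) := by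
    intro m
    induction m with
    | zero =>
      intro D hD
      have hD' : D = Set.univ := by
        rw [Set.ncard_eq_zero (Set.toFinite _)] at hD
        exact Set.compl_empty_iff.mp hD
      subst hD'
      have hfalse : ∀ X : Set W, Disjoint X (dead π a b Set.univ) → ¬ FF π S X := by
        rintro X hX ⟨c, hc⟩
        refine hS (hdown _ _ ?_ hc)
        rintro v hv w hw hwc
        refine Set.disjoint_left.mp hX hw ⟨c, trivial, ?_⟩
        rcases hv with h | h
        · exact Or.inl (hwc.trans h)
        · exact Or.inr (hwc.trans h)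
      have hzN : z ∉ dead π a b (Set.univ : Set C) := by
        rintro ⟨c, _, h | h⟩
        · exact (hz c).1 h
        · exact (hz c).2 h
      refine Win.irrel _ _ z (Set.notMem_empty _) hzN (fun X _ hX => ?_)
      have h1 : ¬ FF π S (insert z X) := by
        apply hfalse
        rw [Set.disjoint_left]
        rintro w (hw | hw)
        · rw [hw]; exact hzN
        · exact Set.disjoint_left.mp hX hw
      have h2 : ¬ FF π S (X \ {z}) :=
        hfalse _ (Set.disjoint_of_subset_left sdiff_subset hX)
      exact ⟨fun h => absurd h h1, fun h => absurd h h2⟩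
    | succ m ih =>
      intro D hD
      have hne' : (Dᶜ).Nonempty := by
        rw [← Set.ncard_pos (Set.toFinite _)]; omega
      obtain ⟨c, hcD⟩ := hne'
      have hBc : ∀ w w' : W, (∀ d, d ≠ c → π w d = π w' d) → w ∈ dead π a b D →
          w' ∈ dead π a b D := by
        rintro w w' hww ⟨d, hd, h⟩
        have hdc : d ≠ c := fun e => hcD (e ▸ hd)
        exact ⟨d, hd, by rw [← hww d hdc]; exact h⟩
      refine win_search (FF π S) {w | π w c = a} ∅ _ _ rfl ?_ ?_
      · intro y hyc _ hyN N' hN1 hN2 _
        have hyc' : π y c = a := hyc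
        refine play π E S hex c (dead π a b D) hBc ∅ {a} hw1 _ N' ?_
          (fun v hv => absurd hv (Set.notMem_empty v)) ?_ ?_ ?_ hN1
        · intro w hw
          rcases hN2 hw with h1 | h1
          · exact Or.inl h1
          · exact Or.inr (Or.inr h1.1)
        · rintro w (h1 | h1)
          · rw [h1]; exact hyc'
          · exact absurd h1 (Set.notMem_empty w)
        · intro v hv
          exact ⟨y, Or.inl rfl, by rw [hyc', show v = a from hv]⟩
        · rintro w (h1 | h1)
          · rw [h1]; exact hyN
          · exact absurd h1 (Set.notMem_empty w)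
      refine win_search (FF π S) {w | π w c = b} ∅ _ _ rfl ?_ ?_
      · intro y hyc _ hyN N' hN1 hN2 _
        have hyc' : π y c = b := hyc
        refine play π E S hex c (dead π a b D) hBc {a} {b} hw2 _ N' ?_ ?_ ?_ ?_ ?_
          (subset_union_left.trans hN1)
        · intro w hw
          rcases hN2 hw with (h1 | h1) | h1
          · exact Or.inl h1
          · exact Or.inr (Or.inl h1.1)
          · exact Or.inr (Or.inr h1.1)
        · intro v hv w hw
          exact hN1 (Or.inr ⟨hw.trans hv, Set.notMem_empty w⟩)
        · rintro w (h1 | h1)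
          · rw [h1]; exact hyc'
          · exact absurd h1 (Set.notMem_empty w)
        · intro v hv
          exact ⟨y, Or.inl rfl, by rw [hyc', show v = b from hv]⟩
        · rintro w (h1 | h1)
          · rw [h1]; exact fun h2 => hyN (Or.inl h2)
          · exact absurd h1 (Set.notMem_empty w)
      · have hcard : ((insert c D)ᶜ).ncard = m := by
          have : (insert c D)ᶜ = Dᶜ \ {c} := by
            ext j; simp only [mem_compl_iff, mem_insert_iff, mem_sdiff, mem_singleton_iff]; tauto
          rw [this, Set.ncard_sdiff_singleton_of_mem hcD, hD]; rfl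
        have := ih (insert c D) hcard
        have e : dead π a b (insert c D) = (dead π a b D ∪ ({w | π w c = a} \ ∅)) ∪
            ({w | π w c = b} \ ∅) := by
          ext w
          constructor
          · rintro ⟨d, (h1 | h1), (h2 | h2)⟩
            · exact Or.inl (Or.inr ⟨h1 ▸ h2, Set.notMem_empty w⟩)
            · exact Or.inr ⟨h1 ▸ h2, Set.notMem_empty w⟩
            · exact Or.inl (Or.inl ⟨d, h1, Or.inl h2⟩)
            · exact Or.inl (Or.inl ⟨d, h1, Or.inr h2⟩)
          · rintro ((⟨d, h1, h2⟩ | h1) | h1)
            · exact ⟨d, Or.inr h1, h2⟩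
            · exact ⟨c, Or.inl rfl, Or.inl h1.1⟩
            · exact ⟨c, Or.inl rfl, Or.inr h1.1⟩
        rw [← e]; exact this
  have h := main _ ∅ rfl
  have e : dead π a b (∅ : Set C) = ∅ := by
    ext w; simp [dead]
  rw [e] at h
  exact h

end words

end Pool.Agent.H73.EX
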