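import Pool.Agent.H73.EX.Red
import Pool.Graph.R_seed8.H571R3.WinTree
import Pool.Graph.R_seed8.R282.EV.Main

set_option autoImplicit false

/-! # Symmetry of the function of words; assembly (helper73, after helper128 and R282). -/

namespace Pool.Agent.H73.EX

open Set
open Pool.Agent.H571R3 (Win win_tree)

variable {V W C : Type} (π : W → C → V) (S : Set V → Prop)

theorem FF_mono (hdown : ∀ A B : Set V, A ⊆ B → S B → S A) {X Y : Set W} (h : X ⊆ Y) :
    FF π S X → FF π S Y := by
  rintro ⟨c, hc⟩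
  exact ⟨c, hdown _ _ (ms_anti π h c) hc⟩

theorem FF_empty (h : ¬ S Set.univ) : ¬ FF π S ∅ := by
  rintro ⟨c, hc⟩
  apply h
  have : ms π (∅ : Set W) c = Set.univ := by
    ext v
    simp only [Set.mem_univ, iff_true]
    exact fun w hw => absurd hw (Set.notMem_empty w)
  rwa [this] at hc

theorem FF_univ (c0 : C) (hcov : S {v | ∀ w, π w c0 ≠ v}) : FF π S Set.univ := by
  refine ⟨c0, ?_⟩
  have h : ms π (Set.univ : Set W) c0 = {v | ∀ w, π w c0 ≠ v} := by
    ext v
    exact ⟨fun h w => h w (Set.mem_univ w), fun h w _ => h w⟩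
  rw [h]
  exact hcov

/-- Symmetries. -/
def Sy (σ : Equiv.Perm W) : Prop := ∃ (ρ : Equiv.Perm C) (g : C → Equiv.Perm V),
  (∀ w c, π (σ w) (ρ c) = g c (π w c)) ∧ ∀ c (A : Set V), S (g c '' A) ↔ S A

theorem Sy.ff {σ : Equiv.Perm W} (h : Sy π S σ) (X : Set W) : FF π S (σ '' X) ↔ FF π S X := by
  obtain ⟨ρ, g, h1, h2⟩ := h
  have key : ∀ c, ms π (σ '' X) (ρ c) = g c '' ms π X c := by
    intro c
    ext v
    constructor
    · intro hb
      refine ⟨(g c).symm v, ?_, by simp⟩
      intro w hw he
      refine hb _ ⟨w, hw, rfl⟩ ?_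
      rw [h1, he]
      simp
    · rintro ⟨u, hb, rfl⟩
      rintro _ ⟨w, hw, rfl⟩ he
      rw [h1] at he
      exact hb w hw ((g c).injective he)
  constructor
  · rintro ⟨c, hc⟩
    refine ⟨ρ.symm c, ?_⟩
    have := key (ρ.symm c)
    rw [ρ.apply_symm_apply] at this
    rw [this, h2] at hc
    exact hc
  · rintro ⟨c, hc⟩
    exact ⟨ρ c, by rw [key, h2]; exact hc⟩

/-- connected by a symmetry. -/
def Rw (u v : W) : Prop := ∃ σ : Equiv.Perm W, (∀ X : Set W, FF π S (σ '' X) ↔ FF π S X) ∧ σ u = v

theorem Rw.refl (u : W) : Rw π S u u := ⟨Equiv.refl _, fun X => by simp, rfl⟩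

variable {π S}

theorem Rw.trans {u v w : W} (h1 : Rw π S u v) (h2 : Rw π S v w) : Rw π S u w := by
  obtain ⟨σ, hσ, rfl⟩ := h1
  obtain ⟨τ, hτ, rfl⟩ := h2
  refine ⟨σ.trans τ, fun X => ?_, rfl⟩
  have : (σ.trans τ) '' X = τ '' (σ '' X) := by
    rw [Set.image_image]; rfl
  rw [this, hτ, hσ]

theorem Rw.symm {u v : W} (h : Rw π S u v) : Rw π S v u := by
  obtain ⟨σ, hσ, rfl⟩ := h
  refine ⟨σ.symm, fun X => ?_, σ.symm_apply_apply u⟩
  rw [← hσ, Set.image_image]
  simp

variable (π S)

/-- Assembly. -/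
theorem assemble [Finite W] [Finite C] (E : V → V → Prop)
    (hex : ∀ (w : W) (c : C) (v : V), E (π w c) v → ∃ z : W, π z c = v ∧ ∀ d, d ≠ c → π z d = π w d)
    (hdown : ∀ A B : Set V, A ⊆ B → S B → S A)
    (c0 : C) (hcov : S {v | ∀ w, π w c0 ≠ v})
    (htr : ∀ w w' : W, Rw π S w w') (a b : V) (z : W)
    (hz : ∀ c, π z c ≠ a ∧ π z c ≠ b) (hS : ¬ S {a, b})
    (hw1 : W1 E S ∅ {a}) (hw2 : W1 E S {a} {b}) (n : ℕ) (hn : Nat.card W = n) :
    2 ≤ n ∧ ∀ r j : ℕ, 1 ≤ r →
      Pool.Agent.Y825.EV.Shallow (r * n ^ j) (r * (n - 1) ^ j) := by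
  classical
  have hred := reduce π E S hex hdown a b z hz hS hw1 hw2
  have : Fintype W := Fintype.ofFinite _
  have hcard : Fintype.card W = n := by
    rw [← Nat.card_eq_fintype_card, hn]
  obtain ⟨t, ht, hdep⟩ := win_tree (FF π S) hred
  have key := Pool.Agent.R282.EV.shallow_all W
    (fun x => decide (FF π S {w | x w = true})) t ?_ ?_ ?_ ?_ hdep
  · rw [hcard] at key
    exact key
  · intro x y hxy
    by_cases h : FF π S {w | x w = true}
    · have h2 : FF π S {w | y w = true} := by
        refine FF_mono π _ hdown ?_ h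
        intro w hw
        have h3 := hxy w
        have hw' : x w = true := hw
        rw [hw'] at h3
        exact top_le_iff.mp h3
      simp only [h, h2, decide_true, le_refl]
    · simp only [h, decide_false]
      exact bot_le
  · refine ⟨fun _ => true, fun _ => false, ?_⟩
    have h1 : FF π S {w | (fun _ : W => true) w = true} := by
      have : {w : W | (fun _ : W => true) w = true} = Set.univ := by
        ext w; simp
      rw [this]
      exact FF_univ π _ c0 hcov
    have h2 : ¬ FF π S {w | (fun _ : W => false) w = true} := by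
      have : {w : W | (fun _ : W => false) w = true} = ∅ := by
        ext w; simp
      rw [this]
      exact FF_empty π _ (fun h => hS (hdown _ _ (Set.subset_univ _) h))
    intro h3
    have h4 := (decide_eq_true h1).symm.trans (h3.trans (decide_eq_false h2))
    exact Bool.noConfusion h4
  · intro w w'
    obtain ⟨σ, h, hσ⟩ := htr w w'
    refine ⟨σ, hσ, fun x => ?_⟩
    have himg : σ '' {u | (x ∘ σ) u = true} = {u | x u = true} := by
      ext u
      constructor
      · rintro ⟨v, hv, rfl⟩
        exact hv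
      · intro hu
        refine ⟨σ.symm u, ?_, σ.apply_symm_apply u⟩
        show x (σ (σ.symm u)) = true
        rw [σ.apply_symm_apply]
        exact hu
    have h3 := h {u | (x ∘ σ) u = true}
    rw [himg] at h3
    exact (decide_eq_decide.mpr h3.symm)
  · intro x
    have h1 := ht x
    by_cases h : FF π S {w | x w = true}
    · rw [h1.mpr h]
      exact (decide_eq_true h).symm
    · cases h4 : t.eval x with
      | false => exact (decide_eq_false h).symm
      | true => exact absurd (h1.mp h4) h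

end Pool.Agent.H73.EX
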